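import Pool.Agent.Y863.AU.FinU

/-!
# One of the first three iterates of almost all maps of a sequence

The pair `(a, d)` stands for the map `x ↦ a + d x`. Let `f` and `g ≠ id` be pairs which satisfy the
hypotheses of the question, with `f g = g^m f`: this means that `g` is a translation and `m` is the
slope of `f`, or that `f` and `g` commute and `m = 1`. For almost all `k` (density one in every long
interval) for which the map `h = g^k f` satisfies the hypotheses of the question, one of the first three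
iterates `h, h^2, h^3` (four, if `3 ∣ d - 1` and `3 ∤ a` for `h = (a, d)`) has the property of the question.

Examples. (1) `g(x) = x + 2`: for every slope `d` and almost all `a` one of the first three iterates of
`x ↦ a + d x` is good. (2) `f = id`: for every `g = (a, d)` and almost all `k` one of
`g^k, g^{2k}, g^{3k}` is good. (3) Maps with a common fixed point `c`: `p - c = (d b^k)^j (q - c)`.

The coloured Maynard-Tao theorem with a constant below `4` (`Pool.Agent.TH899.UG.NW.exactW`) is from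
the starting files, the density Hales-Jewett theorem (`Pool.Agent.H602R3.DHJ`, with
`Pool.Agent.Y877.Comb`) is from the team's files.
-/

set_option autoImplicit false

namespace Pool.Agent.Results.MP_8bf9c2_nt.AlmostAllMaps

open Finset Filter

/-- the composition `x ↦ g (f x)`, where the pair `(a, d)` stands for the map `x ↦ a + d x` -/
def comp (g f : ℤ × ℤ) : ℤ × ℤ := (g.1 + g.2 * f.1, g.2 * f.2)

/-- `x ↦ g^k (f x)` -/
def pw (g : ℤ × ℤ) (k : ℕ) (f : ℤ × ℤ) : ℤ × ℤ := (comp g)^[k] f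

/-- the hypotheses of the question -/
def Adm (f : ℤ × ℤ) : Prop := 1 ≤ f.2 ∧ Int.gcd f.1 f.2 = 1 ∧ 2 ∣ f.1 * f.2

/-- the pair `f = (a, d)` satisfies the hypotheses and the conclusion of the question; moreover, for
every `η > 0` and arbitrarily large `x` there are at least `x ^ (1 - η)` primes `q ≤ x` with `a + q d`
prime -/
def Good (f : ℤ × ℤ) : Prop :=
  Int.gcd f.1 f.2 = 1 ∧ 2 ∣ f.1 * f.2 ∧
    {q : ℕ | q.Prime ∧ ∃ p : ℕ, p.Prime ∧ f.1 + q * f.2 = p}.Infinite ∧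
    ∀ η : ℝ, 0 < η → ∃ᶠ x : ℝ in atTop, x ^ (1 - η) ≤
      ({q : ℕ | (q.Prime ∧ ∃ p : ℕ, p.Prime ∧ f.1 + q * f.2 = p) ∧ (q : ℝ) ≤ x}.ncard : ℝ)

/-- the number of the primes `q`, `y ≤ q ≤ x`, which are mapped to primes -/
noncomputable def count (f : ℤ × ℤ) (y x : ℝ) : ℕ :=
  {q : ℕ | (q.Prime ∧ ∃ p : ℕ, p.Prime ∧ f.1 + q * f.2 = p) ∧ y ≤ q ∧ (q : ℝ) ≤ x}.ncard

open Classical in
/-- `4` if `3` divides `d - 1` and not `a`, otherwise `3`, for `f = (a, d)` -/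
noncomputable def R (f : ℤ × ℤ) : ℕ := if 3 ∣ f.2 - 1 ∧ ¬ 3 ∣ f.1 then 4 else 3

open Pool.Agent.Y863.AU in
/-- the bridge to the monoid of the library -/
def toAf (f : ℤ × ℤ) : Af := ⟨f.1, f.2⟩

open Pool.Agent.Y863.AU in
theorem toAf_pw (g f : ℤ × ℤ) (k : ℕ) : toAf (pw g k f) = toAf g ^ k * toAf f := by
  unfold pw
  induction k with
  | zero => rw [pow_zero, one_mul]; rfl
  | succ k ih =>
    rw [Function.iterate_succ', Function.comp_apply, pow_succ', mul_assoc, ← ih]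
    rfl

theorem eq_of_toAf {f g : ℤ × ℤ} (h : toAf f = toAf g) : f = g := by
  have h1 := congrArg Pool.Agent.Y863.AU.Af.a h
  have h2 := congrArg Pool.Agent.Y863.AU.Af.d h
  exact Prod.ext h1 h2

open Pool.Agent.W25.IT Pool.Agent.Y863.AU in
theorem pw_one (f : ℤ × ℤ) (j : ℕ) : pw f j (0, 1) = (itc f.1 f.2 j, f.2 ^ j) := by
  apply eq_of_toAf
  rw [toAf_pw]
  have h1 : toAf (0, 1) = 1 := rfl
  rw [h1, mul_one]
  ext
  · rw [Af.pow_a]; rfl
  · rw [Af.pow_d]; rfl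

open Classical in
theorem result : ∀ ε : ℝ, 0 < ε → ∃ L : ℕ, ∀ m d d' : ℕ, 1 ≤ m → ∀ u H : ℕ, L * m ^ 25 ≤ H →
    (∀ f g : ℤ × ℤ, f.2 = d → g.2 = d' → Adm f → Adm g → g ≠ (0, 1) → comp f g = pw g m f →
      (((Ioc u (u + H)).filter (fun k : ℕ => Adm (pw g k f) ∧ pw g k f ≠ (0, 1) ∧
        ∀ j : ℕ, 1 ≤ j → j ≤ R (pw g k f) → ¬ Good (pw (pw g k f) j (0, 1)))).card : ℝ) ≤
      ε * (((Ioc u (u + H)).filter (fun k : ℕ => Adm (pw g k f))).card : ℝ)) ∧
    ∃ C : ℕ, 1 ≤ C ∧ ∀ η : ℝ, 0 < η → η ≤ 1 → ∀ᶠ X : ℕ in atTop,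
      ∀ f g : ℤ × ℤ, f.2 = d → g.2 = d' → Adm f → Adm g → g ≠ (0, 1) → comp f g = pw g m f →
      (C : ℤ) * |f.1| ≤ X → (C : ℤ) * |g.1| ≤ X →
      (((Ioc u (u + H)).filter (fun k : ℕ => Adm (pw g k f) ∧ pw g k f ≠ (0, 1) ∧
        ∀ j : ℕ, 1 ≤ j → j ≤ R (pw g k f) →
          (count (pw (pw g k f) j (0, 1)) (X / C) X : ℝ) < (X : ℝ) ^ (1 - η))).card : ℝ) ≤
      ε * (((Ioc u (u + H)).filter (fun k : ℕ => Adm (pw g k f))).card : ℝ) := by
  intro ε hε
  obtain ⟨L, hL⟩ := Pool.Agent.Y863.AU.mainU ε hε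
  refine ⟨L, fun m d d' hm u H hH => ?_⟩
  have hA : ∀ f : ℤ × ℤ, Adm f ↔ 1 ≤ f.2 ∧ (toAf f).Adm := fun f => Iff.rfl
  have hpos : ∀ (f g : ℤ × ℤ) (k : ℕ), 1 ≤ f.2 → 1 ≤ g.2 → 1 ≤ (pw g k f).2 := by
    intro f g k hf hg
    have h1 : (pw g k f).2 = (toAf (pw g k f)).d := rfl
    rw [h1, toAf_pw, Pool.Agent.Y863.AU.Af.mul_d, Pool.Agent.Y863.AU.Af.pow_d]
    have h2 : 0 < (toAf g).d ^ k * (toAf f).d := by
      have h3 : 0 < (toAf g).d := by show 0 < g.2; omega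
      have h4 : 0 < (toAf f).d := by show 0 < f.2; omega
      positivity
    omega
  have hone : ∀ f : ℤ × ℤ, f ≠ (0, 1) ↔ toAf f ≠ 1 := by
    intro f
    constructor
    · intro h h1
      exact h (eq_of_toAf h1)
    · intro h h1
      exact h (by rw [h1]; rfl)
  have hrel : ∀ f g : ℤ × ℤ, comp f g = pw g m f → toAf f * toAf g = toAf g ^ m * toAf f := by
    intro f g h
    rw [← toAf_pw, ← h]
    rfl
  by_cases hdd : 1 ≤ d ∧ 1 ≤ d'
  · obtain ⟨⟨C, hC, h2⟩, h1⟩ := hL m d d' hm hdd.1 hdd.2 u H hH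
    refine ⟨fun f g hfd hgd hf hg hg1 hfg => ?_, C, hC, fun η hη hη1 => ?_⟩
    · have h3 := h1 (toAf f) (toAf g) hfd hgd hf.2 hg.2 ((hone g).1 hg1) (hrel f g hfg)
      simp only [← toAf_pw] at h3
      have e1 : ∀ k : ℕ, Adm (pw g k f) ↔ (toAf (pw g k f)).Adm := fun k =>
        ⟨fun h => h.2, fun h => ⟨hpos f g k hf.1 hg.1, h⟩⟩
      simp only [e1, hone, pw_one]
      exact h3
    · filter_upwards [h2 η hη hη1] with X hX f g hfd hgd hf hg hg1 hfg hCf hCg
      have h3 := hX (toAf f) (toAf g) hfd hgd hf.2 hg.2 ((hone g).1 hg1) (hrel f g hfg) hCf hCg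
      simp only [← toAf_pw] at h3
      have e1 : ∀ k : ℕ, Adm (pw g k f) ↔ (toAf (pw g k f)).Adm := fun k =>
        ⟨fun h => h.2, fun h => ⟨hpos f g k hf.1 hg.1, h⟩⟩
      simp only [e1, hone, pw_one]
      exact h3
  · have hno : ∀ f g : ℤ × ℤ, f.2 = d → g.2 = d' → Adm f → Adm g → False := by
      intro f g hfd hgd hf hg
      have h1 := hf.1
      have h2 := hg.1
      rw [hfd] at h1
      rw [hgd] at h2
      exact hdd ⟨by exact_mod_cast h1, by exact_mod_cast h2⟩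
    refine ⟨fun f g hfd hgd hf hg _ _ => (hno f g hfd hgd hf hg).elim, 1, le_rfl, fun η _ _ =>
      Eventually.of_forall fun X f g hfd hgd hf hg _ _ _ _ => (hno f g hfd hgd hf hg).elim⟩

end Pool.Agent.Results.MP_8bf9c2_nt.AlmostAllMaps
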