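import Pool.Agent.Y851.DK.D7
import Pool.Agent.Y949.DK.SV
import Pool.Agent.Y185.DK.Avg
import Pool.Agent.Y185.DK.Mom
import Pool.Agent.Y195.DK.SGA

/-!
# Primes `q` for which `q d_1 - a_1, ..., q d_k - a_k` are prime, for almost all slopes

Let `θ > 0` be arbitrarily small, let `D` be an arbitrary set of integers `d ≤ N ^ θ` and `S` an arbitrary set of integers
`q ≤ N`, each containing a positive proportion of the integers or of the primes. Then for almost all vectors
`(d_1, ..., d_k)` of elements of `D`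

1. the numbers of primes in the intervals `(q d_j - N ^ η, q d_j)`, `j = 1, ..., k`, multiplied with each other, have over
   `q ∈ S` the expected mean value (`η > θ`), and
2. for a positive proportion of the vectors `(a_1, ..., a_k)` of positive integers `a_j ≤ N ^ η` the number of `q ∈ S` for which
   all `q d_j - a_j` are prime has the expected order of magnitude `|S| / (log N) ^ k`.
-/

set_option autoImplicit false

namespace Pool.Agent.Results.MP_8bf9c2_nt.AlmostAllSlopes

open Finset

/-- a set of positive integers up to `Q` which contains a positive proportion of the integers, or a set of primes up to `Q`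
which contains a positive proportion of the primes up to `Q` -/
def Dense (δ Q : ℝ) (S : Finset ℕ) : Prop :=
  (∀ n ∈ S, 1 ≤ n ∧ (n : ℝ) ≤ Q) ∧ (δ * Q ≤ S.card ∨ ((∀ n ∈ S, n.Prime) ∧ δ * (Q / Real.log Q) ≤ S.card))

/-- the number of primes in the open interval `(x - H, x)`, divided by its expected value `H / log x` -/
noncomputable def density (H x : ℝ) : ℝ :=
  (Set.ncard {p : ℕ | p.Prime ∧ x - H < p ∧ (p : ℝ) < x} : ℝ) * Real.log x / H

/-- the number of `q ∈ S` for which all `q d_j - a_j` are prime (here `q d_j - a_j` is `0`, which is not prime, if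
`a_j > q d_j`) -/
def count {k : ℕ} (S : Finset ℕ) (d a : Fin k → ℕ) : ℕ := (S.filter (fun q : ℕ => ∀ j, (d j * q - a j).Prime)).card

open Classical in
theorem result (k : ℕ) (θ η δ : ℝ) (hθ : 0 < θ) (hη : θ < η) (hη1 : η ≤ 1) (hδ : 0 < δ) :
    ∃ κ N₀ : ℝ, 0 < κ ∧ ∀ N : ℝ, N₀ ≤ N → ∀ D S : Finset ℕ, Dense δ (N ^ θ) D → Dense δ N S →
    -- the mean value of the product of the normalised numbers of primes
    (((Fintype.piFinset (fun _ : Fin k => D)).filter (fun d => ¬
      (|∑ q ∈ S, ∏ j, density (N ^ η) ((d j : ℝ) * q) - S.card| ≤ δ * S.card))).card : ℝ) ≤ δ * (D.card : ℝ) ^ k ∧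
    -- the lower bound for a positive proportion of the constant terms
    (((Fintype.piFinset (fun _ : Fin k => D)).filter (fun d => ¬ (κ * (N ^ η) ^ k ≤
      (((Fintype.piFinset (fun _ : Fin k => Icc 1 ⌊N ^ η⌋₊)).filter
        (fun a => κ * (S.card / Real.log N ^ k) ≤ (count S d a : ℝ))).card : ℝ)))).card : ℝ) ≤ δ * (D.card : ℝ) ^ k := by
  have hden : ∀ H x : ℝ, density H x = Pool.Agent.Y851.PT.ZH H x := fun H x => (Pool.Agent.Y851.PT.ZH_eq H x).symm
  have hMOM := Pool.Agent.Y185.DK.t_MOM Pool.Agent.Y185.DK.AV.t_AVG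
  obtain ⟨κ, N₀, hκ, h⟩ := Pool.Agent.Y851.DK.final Pool.Agent.Y949.DK.t_SV hMOM Pool.Agent.Y195.DK.t_SGA k θ η δ hθ hη hη1 hδ
  refine ⟨κ, N₀, hκ, fun N hN D S hD hS => ?_⟩
  obtain ⟨h1, h2⟩ := h N hN D S hD hS
  simp_rw [hden]
  exact ⟨h1, h2⟩

end Pool.Agent.Results.MP_8bf9c2_nt.AlmostAllSlopes
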