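import Pool.Agent.Y820.LF.Fin

/-!
# Primes `q` with `a + q d` prime, after adding a bounded number of powers of `b` to `a`

A theorem of the type of Linnik: for all systems `(a 1, d 1), ..., (a s, d s)` without a fixed prime divisor of
`q (a 1 + q d 1) ... (a s + q d s)`, with `1 ≤ d i ≤ D` and `0 ≤ a i ≤ B X`, one can add at most `K` powers of `b` to
each `a i` such that for the resulting numbers `a' i` the number of the primes `q ≤ N` for which all
`a' i + q d i` are primes is given by the formula of Hardy and Littlewood (Dickson, Bateman and Horn), up to a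
relative error of `ε`, for all `N` between `X / m` and `X`; `K` depends on `b, s, D, B, m, ε` alone. The powers
can be the same for all the systems of an arbitrary family, up to a proportion `ρ` of its members.

Method: the average over random sets of exponents in windows of the digits of a correlation sum of `s` linear
forms, a second moment for each factor of the product by the inequality of Cauchy and Schwarz for Gram
matrices, Vaughan's identity and the sieve. Libraries: W93, TH892, TH894, H373R2, H560R3 (starting files),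
Y820 (helper820; tasks by helper692, helper71, helper514, helper515, helper484).
-/

set_option autoImplicit false

namespace Pool.Agent.Results.MP_8bf9c2_nt.BoundedlyManyPowers

open Finset Filter

/-- The number of primes `q ≤ N` for which all `a i + q * d i` are primes. -/
def count {s : ℕ} (a d : Fin s → ℕ) (N : ℕ) : ℕ :=
  ((Icc 1 N).filter (fun q : ℕ => q.Prime ∧ ∀ i, (a i + q * d i).Prime)).card

/-- The number `ν(p)` of the residues `r` modulo `p` for which `p` divides `r (a 1 + r d 1) ... (a s + r d s)`. -/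
def nu {s : ℕ} (a d : Fin s → ℕ) (p : ℕ) : ℕ := ((range p).filter (fun r => p ∣ r ∨ ∃ i, p ∣ a i + r * d i)).card

/-- No prime divides `r (a 1 + r d 1) ... (a s + r d s)` for all `r`. -/
def Adm {s : ℕ} (a d : Fin s → ℕ) : Prop := ∀ p : ℕ, p.Prime → nu a d p < p

/-- The partial products `∏_{p ≤ z} (1 - ν(p) / p) / (1 - 1 / p) ^ (s + 1)` of the singular series. -/
noncomputable def sing {s : ℕ} (a d : Fin s → ℕ) (z : ℕ) : ℝ :=
  ∏ p ∈ (Icc 1 z).filter Nat.Prime, (1 - (nu a d p : ℝ) / p) / (1 - 1 / (p : ℝ)) ^ (s + 1)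

/-- There is no fixed prime divisor, and the formula of Hardy and Littlewood holds with a relative error of at
most `ε`, for all `N` between `X / m` and `X`: the partial products of the singular series converge to some
`G > 0`, and `count a d N` is `G N / log ^ (s + 1) N` up to the factor `1 ± ε`. -/
def Formula {s : ℕ} (ε : ℝ) (m X : ℕ) (a d : Fin s → ℕ) : Prop :=
  Adm a d ∧ ∃ G : ℝ, 0 < G ∧ Tendsto (sing a d) atTop (nhds G) ∧ ∀ N : ℕ, N ≤ X → X ≤ m * N →
    |(count a d N : ℝ) - G * (N / Real.log N ^ (s + 1))| ≤ ε * (G * (N / Real.log N ^ (s + 1)))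

lemma nu_eq {s : ℕ} (a d : Fin s → ℕ) (p : ℕ) :
    Pool.Agent.Y820.LF.nuF (Pool.Agent.Y820.LF.C1 (fun i => (d i : ℤ))) (Pool.Agent.Y820.LF.H1 (fun i => (a i : ℤ))) p = nu a d p := by
  rw [Pool.Agent.Y820.LF.nuF_C1]
  unfold nu
  congr 1
  apply filter_congr
  intro r _
  have h1 : ∀ i, ((p : ℤ) ∣ (d i : ℤ) * (r : ℤ) + (a i : ℤ)) ↔ p ∣ a i + r * d i := by
    intro i
    have e : (d i : ℤ) * (r : ℤ) + (a i : ℤ) = ((a i + r * d i : ℕ) : ℤ) := by push_cast; ring
    rw [e, Int.natCast_dvd_natCast]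
  simp only [h1, Int.natCast_dvd_natCast]

lemma sing_eq {s : ℕ} (a d : Fin s → ℕ) :
    Pool.Agent.Y820.LF.singF (Pool.Agent.Y820.LF.C1 (fun i => (d i : ℤ))) (Pool.Agent.Y820.LF.H1 (fun i => (a i : ℤ))) = sing a d := by
  funext z
  unfold Pool.Agent.Y820.LF.singF sing
  apply prod_congr rfl
  intro p _
  rw [nu_eq]

lemma adm_iff {s : ℕ} (a d : Fin s → ℕ) :
    Pool.Agent.Y820.LF.AdmF (Pool.Agent.Y820.LF.C1 (fun i => (d i : ℤ))) (Pool.Agent.Y820.LF.H1 (fun i => (a i : ℤ))) ↔ Adm a d := by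
  unfold Pool.Agent.Y820.LF.AdmF Adm
  simp only [nu_eq]

lemma count_eq {s : ℕ} (a d : Fin s → ℕ) (N : ℕ) :
    Pool.Agent.Y820.LF.cntF (Pool.Agent.Y820.LF.C1 (fun i => (d i : ℤ))) (Pool.Agent.Y820.LF.H1 (fun i => (a i : ℤ))) N = count a d N := by
  rw [Pool.Agent.Y820.LF.cntF_C1]
  unfold count
  congr 1
  apply filter_congr
  intro n _
  have h1 : ∀ i, ((d i : ℤ) * (n : ℤ) + (a i : ℤ)).toNat = a i + n * d i := by
    intro i
    have e : (d i : ℤ) * (n : ℤ) + (a i : ℤ) = ((a i + n * d i : ℕ) : ℤ) := by push_cast; ring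
    rw [e, Int.toNat_natCast]
  simp only [h1]

lemma pos {s : ℕ} (a d : Fin s → ℕ) (hd : ∀ i, 1 ≤ d i) (N : ℕ) (hN : 1 ≤ N) :
    Pool.Agent.Y820.LF.PosF (Pool.Agent.Y820.LF.C1 (fun i => (d i : ℤ))) (Pool.Agent.Y820.LF.H1 (fun i => (a i : ℤ))) N := by
  intro i
  refine Fin.cases ?_ (fun i => ?_) i
  · rw [Pool.Agent.Y820.LF.C1_zero, Pool.Agent.Y820.LF.H1_zero]
    constructor <;> omega
  · rw [Pool.Agent.Y820.LF.C1_succ, Pool.Agent.Y820.LF.H1_succ]
    have h1 := hd i
    have h2 : 1 ≤ d i * N := Nat.mul_pos h1 hN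
    have h3 : (1 : ℤ) ≤ (d i : ℤ) * (N : ℤ) := by exact_mod_cast h2
    constructor <;> omega

/-- for one pair `(a, d)` the condition is that of the problem -/
lemma adm_one (a d : ℕ) : Adm (fun _ : Fin 1 => a) (fun _ => d) ↔ Nat.Coprime a d ∧ 2 ∣ a * d := by
  have key : ∀ p : ℕ, p.Prime → ∀ r, r < p → (¬ (p ∣ r ∨ ∃ _ : Fin 1, p ∣ a + r * d)) → nu (fun _ : Fin 1 => a) (fun _ => d) p < p := by
    intro p hp r hr hnot
    unfold nu
    have h1 : (range p).filter (fun r => p ∣ r ∨ ∃ _ : Fin 1, p ∣ a + r * d) ⊂ range p := by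
      rw [Finset.ssubset_iff_subset_ne]
      refine ⟨filter_subset _ _, fun h => ?_⟩
      have h2 : r ∈ (range p).filter (fun r => p ∣ r ∨ ∃ _ : Fin 1, p ∣ a + r * d) := by
        rw [h]
        exact mem_range.2 hr
      exact hnot (mem_filter.1 h2).2
    have := card_lt_card h1
    rwa [card_range] at this
  constructor
  · intro h
    have ex : ∀ p : ℕ, p.Prime → ∃ r, r < p ∧ ¬ p ∣ r ∧ ¬ p ∣ a + r * d := by
      intro p hp
      have h1 := h p hp
      unfold nu at h1
      obtain ⟨r, hr, hr2⟩ := exists_mem_notMem_of_card_lt_card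
        (s := (range p).filter (fun r => p ∣ r ∨ ∃ _ : Fin 1, p ∣ a + r * d)) (t := range p) (by rw [card_range]; exact h1)
      have h2 : ¬ (p ∣ r ∨ ∃ _ : Fin 1, p ∣ a + r * d) := fun h3 => hr2 (mem_filter.2 ⟨hr, h3⟩)
      push Not at h2
      exact ⟨r, mem_range.1 hr, h2.1, h2.2 0⟩
    constructor
    · apply Nat.Coprime.symm
      apply Nat.coprime_of_dvd
      intro p hp hpd hpa
      obtain ⟨r, _, _, h3⟩ := ex p hp
      exact h3 (dvd_add hpa (Dvd.dvd.mul_left hpd r))
    · obtain ⟨r, hr, h2, h3⟩ := ex 2 Nat.prime_two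
      have hr1 : r = 1 := by omega
      rw [hr1, one_mul] at h3
      rcases Nat.even_or_odd a with ha | ha
      · exact Dvd.dvd.mul_right ha.two_dvd d
      · rcases Nat.even_or_odd d with hd | hd
        · exact Dvd.dvd.mul_left hd.two_dvd a
        · exact absurd (ha.add_odd hd).two_dvd h3
  · rintro ⟨hc, h2⟩ p hp
    by_cases hp2 : p = 2
    · subst hp2
      refine key 2 hp 1 (by norm_num) ?_
      rintro (h | ⟨_, h⟩)
      · omega
      · rw [one_mul] at h
        rcases (Nat.Prime.dvd_mul Nat.prime_two).1 h2 with h3 | h3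
        · exact Nat.Prime.not_coprime_iff_dvd.2 ⟨2, Nat.prime_two, h3, (Nat.dvd_add_right h3).1 h⟩ hc
        · exact Nat.Prime.not_coprime_iff_dvd.2 ⟨2, Nat.prime_two, (Nat.dvd_add_left h3).1 h, h3⟩ hc
    · have hp3 : 3 ≤ p := by
        have := hp.two_le
        omega
      by_cases h1 : p ∣ a + 1 * d
      · refine key p hp 2 (by omega) ?_
        rintro (h | ⟨_, h⟩)
        · exact absurd (Nat.le_of_dvd (by norm_num) h) (by omega)
        · have h4 : p ∣ d := by
            have e : a + 2 * d = (a + 1 * d) + d := by ring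
            rw [e] at h
            exact (Nat.dvd_add_right h1).1 h
          have h5 : p ∣ a := (Nat.dvd_add_left (Dvd.dvd.mul_left h4 1)).1 h1
          exact Nat.Prime.not_coprime_iff_dvd.2 ⟨p, hp, h5, h4⟩ hc
      · refine key p hp 1 (by omega) ?_
        rintro (h | ⟨_, h⟩)
        · exact absurd (Nat.le_of_dvd (by norm_num) h) (by omega)
        · exact h1 h

/-- Part 1. For all `b ≥ 2`, `s ≥ 1`, `D`, `B`, `m ≥ 1` and `ε, ρ, θ > 0` there are `K` and `X₀` with the following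
property. Let `X ≥ X₀` and let `T` be an ARBITRARY finite set of systems `(a, d)` with `1 ≤ d i ≤ D`,
`0 ≤ a i ≤ B X` and without a fixed prime divisor of `r (a 1 + r d 1) ... (a s + r d s)`. There are sets
`S 1, ..., S s` of at most `K` exponents each, with `∑_{ν ∈ S i} b ^ ν ≤ θ X`, such that for all but at most
`ρ |T|` of the systems in `T` (in particular for all of them if `ρ |T| < 1`) the numbers
`a' i = a i + ∑_{ν ∈ S i} b ^ ν` have the following property: there is no fixed prime divisor, and for all `N`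
between `X / m` and `X` the number of the primes `q ≤ N` for which all `a' i + q d i` are primes satisfies the
formula of Hardy and Littlewood with a relative error of at most `ε`.

Part 2. For `s = 1` the condition on `(a, d)` is that of the problem: `gcd(a, d) = 1` and `2 ∣ a d`. -/
theorem result :
    (∀ (b s D B m : ℕ), 2 ≤ b → 1 ≤ s → 1 ≤ m → ∀ (ε ρ θ : ℝ), 0 < ε → 0 < ρ → 0 < θ →
      ∃ K X₀ : ℕ, ∀ X : ℕ, X₀ ≤ X → ∀ T : Finset ((Fin s → ℕ) × (Fin s → ℕ)),
        (∀ g ∈ T, Adm g.1 g.2 ∧ ∀ i, g.1 i ≤ B * X ∧ 1 ≤ g.2 i ∧ g.2 i ≤ D) →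
        ∃ S : Fin s → Finset ℕ, (∀ i, (S i).card ≤ K ∧ ∑ ν ∈ S i, (b : ℝ) ^ ν ≤ θ * X) ∧
          ∃ E ⊆ T, (E.card : ℝ) ≤ ρ * T.card ∧
            ∀ g ∈ T, g ∉ E → Formula ε m X (fun i => g.1 i + ∑ ν ∈ S i, b ^ ν) g.2) ∧
    (∀ a d : ℕ, Adm (fun _ : Fin 1 => a) (fun _ => d) ↔ Nat.Coprime a d ∧ 2 ∣ a * d) := by
  refine ⟨fun b s D B m hb hs hm ε ρ θ hε hρ hθ => ?_, adm_one⟩
  obtain ⟨K, X₀, hmain⟩ := Pool.Agent.Y820.LF.con1u b hb s hs (D + 1) B m (by omega) hm ε ρ (min θ 1) hε hρ (lt_min hθ one_pos) (min_le_right _ _)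
  refine ⟨K, X₀ + 1, fun X hX T hT => ?_⟩
  obtain ⟨S, hS1, hS2, E, hET, hEc, hE⟩ := hmain X (by omega) (fun _ => 1) (fun _ => Or.inl rfl) ((Fin s → ℕ) × (Fin s → ℕ)) T
    (fun g i => (g.2 i : ℤ)) (fun g i => (g.1 i : ℤ)) (fun g hg i => by
      obtain ⟨_, h2, h3⟩ := (hT g hg).2 i
      refine ⟨by exact_mod_cast (by omega : g.2 i ≠ 0), ?_⟩
      rw [abs_of_nonneg (by positivity)]
      exact_mod_cast (by omega : g.2 i ≤ D + 1)) (fun g hg i => by
      rw [abs_of_nonneg (by positivity)]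
      exact_mod_cast ((hT g hg).2 i).1)
  refine ⟨S, fun i => ⟨hS1 i, (hS2 i).trans (mul_le_mul_of_nonneg_right (min_le_left _ _) (Nat.cast_nonneg _))⟩, E, hET, hEc, fun g hg hgE => ?_⟩
  obtain ⟨hadm, G, hG0, hG1, hG2⟩ := hE g hg hgE (fun i => ((g.1 i + ∑ ν ∈ S i, b ^ ν : ℕ) : ℤ)) (fun i => by push_cast; ring)
    ((adm_iff g.1 g.2).2 (hT g hg).1)
  refine ⟨(adm_iff _ _).1 hadm, G, hG0, ?_, ?_⟩
  · rw [← sing_eq]
    exact hG1
  · intro N hN1 hN2
    have hN0 : 1 ≤ N := by
      by_contra hcon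
      have : N = 0 := by omega
      rw [this, mul_zero] at hN2
      omega
    have h1 := hG2 N hN1 hN2 (pos _ _ (fun i => ((hT g hg).2 i).2.1) N hN0)
    rw [count_eq] at h1
    exact h1

end Pool.Agent.Results.MP_8bf9c2_nt.BoundedlyManyPowers
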