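import Pool.Agent.Y863.TP.Box3

/-!
# Unless almost all even numbers are differences of primes, every slope has density at least 1/4

Let `E₀ ∣ E₁ ∣ E₂ ∣ E₃` be positive integers, `P` a multiple of `6` divisible by the prime factors of the
`E_i`, and `u₀, …, u₃` integers prime to `P`. For `i < j` let `d = E_j / E_i`; all `a ≡ u_j - d u_i (mod P)`
satisfy the hypotheses of the question for the slope `d`. Let `D_{ij}(I)` be the proportion of the good `a`
among them in an interval `I`. The pair `ij` is called sparse if, for some `M`, the set of the `k` for which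
`a = u_j - d u_i + P k` is not good contains no sumset `X + Y` with `M` elements in `X` and in `Y`, and has at
most `8 M L ^ (1 - 1 / M)` elements in every interval of length `L`.

(1) At least one of the following holds: `01` is sparse; `D_{02} + D_{12} ≥ 1 - ε` in all long intervals;
`D_{03} + D_{13} + D_{23} ≥ 1 - ε` in all long intervals, for every `ε > 0`.

(2) At least one of the following holds: `01` is sparse; `23` is sparse (modulo `e P`, `e = E₃ / E₂`);
`D_{02}(I) + D_{12}(I) + D_{03}(e I) + D_{13}(e I) ≥ 1 - ε` for all long intervals `I`, for every `ε > 0`,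
the last two proportions being taken modulo `e P`.

Examples. (a) `E = (1, 1, d, d)`, `u₀ = u₁`, `u₂ = u₃` in (2): if the multiples `P k` of `P` for which
`q + P k` is prime for only few primes `q` are not sparse, then for EVERY `d` whose prime factors divide `P`, in
EVERY class `w = u₂ - d u₀` modulo `P` and every long interval at least `1/4 - ε` of the `a` are good. By (1)
with `E = (1, 1, 1, d)` this improves to `1/3 - ε` unless at least `1/2 - ε` of the multiples of `P` in every
long interval are good for the slope one.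
(b) `E = (1, d, d², d³)` in (1): one of `D(d) ≥ 1 - ε` (the bad `a` are sparse), `D(d) + D(d²) ≥ 1 - ε`,
`D(d) + D(d²) + D(d³) ≥ 1 - ε` in all long intervals; so one of `d, d², d³` has density at least `1/3`.
(c) `E = (1, e, d, e d)` with `e ∣ d` in (2): unless the bad `a` for the slope `e` are sparse,
`D(d / e) + 2 D(d) + D(d e) ≥ 1 - ε`.

The coloured Maynard-Tao theorem for four classes of linear forms (`Pool.Agent.TH899.UG.fourC`), its
consequence for almost all tuples (`Pool.Agent.TH899.UG.almost_all_pow`) and the bound of Kővári, Sós and Turán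
(`Pool.Agent.TH880.GP.kst`) are from the starting files.
-/

set_option autoImplicit false

open Finset Filter

namespace Pool.Agent.Results.MP_8bf9c2_nt.GreedyTradeOffs

/-- the pair `(a, d)` satisfies the hypotheses and the conclusion of the question; moreover, for every
`η > 0` and arbitrarily large `x` there are at least `x ^ (1 - η)` primes `q ≤ x` with `a + q d` prime -/
def Good (a d : ℤ) : Prop :=
  Int.gcd a d = 1 ∧ 2 ∣ a * d ∧ {q : ℕ | q.Prime ∧ ∃ p : ℕ, p.Prime ∧ a + q * d = p}.Infinite ∧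
    ∀ η : ℝ, 0 < η → ∃ᶠ x : ℝ in atTop, x ^ (1 - η) ≤
      ({q : ℕ | (q.Prime ∧ ∃ p : ℕ, p.Prime ∧ a + q * d = p) ∧ (q : ℝ) ≤ x}.ncard : ℝ)

/-- the number of the good `a` in `[c, c + A)` for the slope `d` in the residue class of `v` modulo `P`,
divided by `A / P` -/
noncomputable def D (P : ℕ) (v : ℤ) (d : ℕ) (c : ℤ) (A : ℕ) : ℝ :=
  ({a : ℤ | c ≤ a ∧ a < c + A ∧ (P : ℤ) ∣ a - v ∧ Good a d}.ncard : ℝ) / ((A : ℝ) / P)

/-- for every `ε > 0` the value of `F` is at least `1 - ε` for all sufficiently long intervals -/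
def AlmostOne (F : ℤ → ℕ → ℝ) : Prop :=
  ∀ ε : ℝ, 0 < ε → ∃ L : ℕ, ∀ A : ℕ, L ≤ A → ∀ c : ℤ, 1 - ε ≤ F c A

/-- the `k` for which `v + P k` is not good for the slope `d` contain no sumset of two sets with `M`
elements, and are few in every interval -/
def Sparse (P : ℕ) (v : ℤ) (d : ℕ) : Prop :=
  ∃ M : ℕ, 1 ≤ M ∧
    (∀ X Y : Finset ℤ, M ≤ X.card → M ≤ Y.card → ∃ x ∈ X, ∃ y ∈ Y, Good (v + P * (x + y)) d) ∧
    ∀ (z : ℤ) (L : ℕ), 1 ≤ L →
      ({k : ℤ | z < k ∧ k ≤ z + L ∧ ¬ Good (v + P * k) d}.ncard : ℝ) ≤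
        8 * M * (L : ℝ) ^ (1 - 1 / (M : ℝ))

/-- the quotient of two terms of the chain `E` -/
def sl (E : Fin 4 → ℕ) (i j : Fin 4) : ℕ := E j / E i

/-- the class of the constants for the slope `sl E i j` -/
def cl (E : Fin 4 → ℕ) (u : Fin 4 → ℤ) (i j : Fin 4) : ℤ := u j - sl E i j * u i

theorem rho_eq (P : ℕ) (v : ℤ) (d : ℕ) (c : ℤ) (A : ℕ) :
    Pool.Agent.Y863.TP.rho P v d c A = D P v d c A := by
  classical
  unfold Pool.Agent.Y863.TP.rho D Pool.Agent.Y863.TP.cnt
  have h : ({a : ℤ | c ≤ a ∧ a < c + A ∧ (P : ℤ) ∣ a - v ∧ Good a d}.ncard) =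
      ((Finset.Ico c (c + A)).filter
        (fun a => (P : ℤ) ∣ a - v ∧ Pool.Agent.Y863.TP.GoodP a d)).card := by
    rw [← Set.ncard_coe_finset]
    congr 1
    ext a
    rw [Finset.coe_filter, Set.mem_ofPred_eq, Set.mem_ofPred_eq, Finset.mem_Ico, and_assoc]
    exact Iff.rfl
  rw [h, div_div_eq_mul_div, mul_comm]

theorem result (E : Fin 4 → ℕ) (hE : ∀ i, 0 < E i) (hdvd : ∀ i j, i ≤ j → E i ∣ E j) (P : ℕ)
    (hP : 0 < P) (h6 : 6 ∣ P) (hEP : ∀ p : ℕ, p.Prime → ∀ i, p ∣ E i → p ∣ P) (u : Fin 4 → ℤ)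
    (hu : ∀ i, Int.gcd (u i) P = 1) :
    (Sparse P (cl E u 0 1) (sl E 0 1) ∨
      AlmostOne (fun c A => D P (cl E u 0 2) (sl E 0 2) c A + D P (cl E u 1 2) (sl E 1 2) c A) ∨
      AlmostOne (fun c A => D P (cl E u 0 3) (sl E 0 3) c A + D P (cl E u 1 3) (sl E 1 3) c A +
        D P (cl E u 2 3) (sl E 2 3) c A)) ∧
    (Sparse P (cl E u 0 1) (sl E 0 1) ∨
      Sparse (sl E 2 3 * P) (cl E u 2 3) (sl E 2 3) ∨
      AlmostOne (fun c A => D P (cl E u 0 2) (sl E 0 2) c A + D P (cl E u 1 2) (sl E 1 2) c A +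
        D (sl E 2 3 * P) (cl E u 0 3) (sl E 0 3) (sl E 2 3 * c) (sl E 2 3 * A) +
        D (sl E 2 3 * P) (cl E u 1 3) (sl E 1 3) (sl E 2 3 * c) (sl E 2 3 * A))) := by
  classical
  have hq : ∀ i j : Fin 4, i ≤ j → 0 < sl E i j := fun i j hij =>
    Nat.div_pos (Nat.le_of_dvd (hE j) (hdvd i j hij)) (hE i)
  by_cases hB : ∀ K, Pool.Agent.Y863.TP.Bx2 P (u 0) (u 1) (E 1 / E 0) K
  · constructor
    · right
      by_cases h2 : AlmostOne
        (fun c A => D P (cl E u 0 2) (sl E 0 2) c A + D P (cl E u 1 2) (sl E 1 2) c A)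
      · exact Or.inl h2
      · right
        unfold AlmostOne at h2
        push Not at h2
        obtain ⟨ε, hε, hbad⟩ := h2
        have h3 := Pool.Agent.Y863.TP.ext2 P hP (u 0) (u 1) (u 2) (E 1 / E 0) (E 2 / E 0)
          (E 2 / E 1) hB ε hε (by
            intro L
            obtain ⟨A, hA, c, hc⟩ := hbad L
            refine ⟨A, hA, c, ?_⟩
            rw [rho_eq, rho_eq]
            exact hc)
        intro ε' hε'
        obtain ⟨L, hL⟩ := Pool.Agent.Y863.TP.ext3 E hE hdvd P hP h6 hEP u hu h3 ε' hε'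
        refine ⟨L, fun A hA c => ?_⟩
        have h4 := hL A hA c
        rw [rho_eq, rho_eq, rho_eq] at h4
        exact h4
    · right
      by_cases hB' : ∀ K, Pool.Agent.Y863.TP.Bxm P (E 3 / E 2 * P) (u 2) (u 3) (E 3 / E 2) K
      · right
        intro ε hε
        obtain ⟨L, hL⟩ := Pool.Agent.Y863.TP.ext22s E hE hdvd P hP h6 hEP u hu hB hB' ε hε
        refine ⟨L, fun A hA c => ?_⟩
        have h4 := hL A hA c
        rw [rho_eq, rho_eq, rho_eq, rho_eq] at h4
        exact h4
      · left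
        push Not at hB'
        obtain ⟨K, hK⟩ := hB'
        exact Pool.Agent.Y863.TP.sparse_m P hP (u 2) (u 3) (E 3 / E 2) (hq 2 3 (by decide)) K hK
  · push Not at hB
    obtain ⟨K, hK⟩ := hB
    have h1 : Sparse P (cl E u 0 1) (sl E 0 1) :=
      Pool.Agent.Y863.TP.sparse_of P hP (u 0) (u 1) (E 1 / E 0) (hq 0 1 (by decide)) K hK
    exact ⟨Or.inl h1, Or.inl h1⟩

end Pool.Agent.Results.MP_8bf9c2_nt.GreedyTradeOffs
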